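import Pool.Agent.U136.Leg

/-!
# MP_87bea5_an: polynomial Legendre multiplier sequences are polynomials in `k(k+1)`

Every real polynomial is `Q(k) = A(k(k+1)) + (2k+1) B(k(k+1))`.  In the variable `t = (1+x)/2` the
operator of the sequence is `A(L) + N B(L)`, where `L f = -(t(1-t)f')'` and `N` is given by
`N t^n = ∑_j (2j+1) C(n,j) (-1/2)_{n-j} (1/2)_j / (1/2)_n t^j`.  The image of `t^n` has only real
zeros, so its Taylor coefficients at `t = 0` satisfy Laguerre's inequality.  Multiplied by `n` they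
tend, as `n → ∞`, to those of a nonzero combination of `(1-t)^(-3/2), ..., (1-t)^(-3/2-m)`,
`m = deg B`, and these violate the inequality at high orders.
-/

set_option autoImplicit false

namespace Pool.Agent.Results.MP_87bea5_an.EvenPolynomials

open Polynomial Finset

/-- the Legendre polynomial `P_n = (1 / (2^n n!)) (d/dx)^n (x^2-1)^n` -/
noncomputable def P (n : ℕ) : ℝ[X] :=
  C (1 / (2 ^ n * (n.factorial : ℝ))) * derivative^[n] ((X ^ 2 - 1) ^ n)

/-- `p` has only real zeros (the zero polynomial counts as such): `p = 0`, or all the complex zeros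
of `p` are real -/
def OnlyRealZeros (p : ℝ[X]) : Prop := p = 0 ∨ ∀ z : ℂ, aeval z p = 0 → z.im = 0

/-- `γ` is a Legendre multiplier sequence: if `∑ a_k P_k` has only real zeros, so has
`∑ γ_k a_k P_k` -/
def IsLegendreMultiplierSequence (γ : ℕ → ℝ) : Prop :=
  ∀ (n : ℕ) (a : ℕ → ℝ), OnlyRealZeros (∑ k ∈ range n, a k • P k) →
    OnlyRealZeros (∑ k ∈ range n, (γ k * a k) • P k)

/-- (1) If `(Q(k))` is a Legendre multiplier sequence, `Q` a real polynomial, then `Q(k)` is a
polynomial in `k(k+1)`. (2) In particular the degree of `Q` is not odd. -/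
theorem result :
    (∀ Q : ℝ[X], IsLegendreMultiplierSequence (fun k => Q.eval (k : ℝ)) →
      ∃ A : ℝ[X], Q = A.comp (X ^ 2 + X)) ∧
    (∀ d : ℕ, Odd d → ∀ Q : ℝ[X], Q.natDegree = d →
      ¬ IsLegendreMultiplierSequence (fun k => Q.eval (k : ℝ))) := by
  have h1 : ∀ Q : ℝ[X], IsLegendreMultiplierSequence (fun k => Q.eval (k : ℝ)) →
      ∃ A : ℝ[X], Q = A.comp (X ^ 2 + X) := fun Q hQ => Pool.Agent.U136.Leg.main Q hQ
  refine ⟨h1, ?_⟩
  rintro d hd Q rfl h
  obtain ⟨A, hA⟩ := h1 Q h
  have h2 : (X ^ 2 + X : ℝ[X]).natDegree = 2 := by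
    compute_degree!
  rw [hA, natDegree_comp, h2] at hd
  exact (Nat.not_odd_iff_even.2 (even_two.mul_left _)) hd

end Pool.Agent.Results.MP_87bea5_an.EvenPolynomials
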